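import Mathlib

/-!
MP_9095a7_co.  Strongly induced-saturated countable hypergraphs exist for every `k ≥ 4` and every
`H` with an edge and a non-edge, and for `k = 3` whenever every two vertices of `H` lie in a common
edge, or every two vertices of `H` lie in a common non-edge.

Outline.  For `k ≥ 4`, either every two vertices of `H` lie in a common edge, or every two vertices
lie in a common non-edge; by complementing we may assume the former.  We build a generic `H`-free
hypergraph on `ℕ` vertex by vertex: the new vertex `n` is joined to a prescribed finite set `X` in a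
prescribed way whenever this does not create an induced copy of `H` inside `X ∪ {n}`.  As every two
vertices of `H` lie in an edge, no copy of `H` ever appears.  Given a locally finite perturbation
and a perturbed set `e`, flip one `k`-set `e₀` of `H`, and embed the result vertex by vertex,
starting with `e₀ ↦ e`; each new vertex has infinitely many candidates, so it can be chosen outside
all perturbed sets which meet the vertices chosen before.
-/

set_option autoImplicit false

namespace Pool.Agent.Results.MP_9095a7_co.KAtLeastFour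

open Finset

universe u v

/-- A `k`-uniform hypergraph on the vertex set `V`. -/
structure HG (k : ℕ) (V : Type u) where
  /-- the edges -/
  E : Set (Finset V)
  /-- every edge has exactly `k` vertices -/
  card_eq : ∀ e ∈ E, e.card = k

/-- `G` contains an induced copy of `H`. -/
def HasInduced {k : ℕ} {W : Type u} {V : Type v} (H : HG k W) (G : HG k V) : Prop :=
  ∃ φ : W ↪ V, ∀ e : Finset W, e.card = k → (e ∈ H.E ↔ e.map φ ∈ G.E)

/-- The perturbation of `G` along the family `P` of `k`-sets. -/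
def perturb {k : ℕ} {V : Type u} (G : HG k V) (P : Set (Finset V))
    (hP : ∀ e ∈ P, e.card = k) : HG k V where
  E := symmDiff G.E P
  card_eq := by
    intro e he
    rcases he with ⟨h, -⟩ | ⟨h, -⟩
    · exact G.card_eq e h
    · exact hP e h

/-- Every vertex lies in only finitely many members of `P`. -/
def LocFinite {V : Type u} (P : Set (Finset V)) : Prop :=
  ∀ v : V, {e : Finset V | e ∈ P ∧ v ∈ e}.Finite

/-- `G` is strongly `H`-induced-saturated. -/
def StronglySat {k : ℕ} {W : Type u} {V : Type v} (H : HG k W) (G : HG k V) : Prop :=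
  ¬ HasInduced H G ∧
    ∀ (P : Set (Finset V)) (hP : ∀ e ∈ P, e.card = k), P.Nonempty → LocFinite P →
      HasInduced H (perturb G P hP)

/-! ### The generic hypergraph -/

section construction

variable {W : Type u}

/-- a copy of `EH` inside `Z` -/
def CopyIn (k : ℕ) (EH : Set (Finset W)) (S : Set (Finset ℕ)) (Z : Finset ℕ) : Prop :=
  ∃ φ : W ↪ ℕ, (∀ w, φ w ∈ Z) ∧ ∀ e : Finset W, e.card = k → (e ∈ EH ↔ e.map φ ∈ S)

/-- add the vertex `n` with link `L` on `X` -/
def step (k n : ℕ) (S : Set (Finset ℕ)) (X : Finset ℕ) (L : Finset (Finset ℕ)) :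
    Set (Finset ℕ) :=
  {s | s ∈ S ∨ ∃ l ∈ L, l ⊆ X ∧ l.card + 1 = k ∧ s = insert n l}

/-- an enumeration of all pairs in which every pair occurs infinitely often -/
noncomputable def t (n : ℕ) : Finset ℕ × Finset (Finset ℕ) :=
  ((Encodable.decode (Nat.unpair n).1 : Option (Finset ℕ × Finset (Finset ℕ)))).getD (∅, ∅)

lemma t_surj (p : Finset ℕ × Finset (Finset ℕ)) (N : ℕ) : ∃ n, N ≤ n ∧ t n = p := by
  refine ⟨Nat.pair (Encodable.encode p) N, Nat.right_le_pair _ _, ?_⟩
  simp [t]

open Classical in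
/-- the hypergraph on the first `n` vertices -/
noncomputable def Gn (k : ℕ) (EH : Set (Finset W)) : ℕ → Set (Finset ℕ)
  | 0 => ∅
  | n + 1 =>
    if (t n).1 ⊆ range n ∧
        ¬ CopyIn k EH (step k n (Gn k EH n) (t n).1 (t n).2) (insert n (t n).1) then
      step k n (Gn k EH n) (t n).1 (t n).2
    else Gn k EH n

variable {k : ℕ} {EH : Set (Finset W)}

lemma Gn_succ_pos {n : ℕ} (h : (t n).1 ⊆ range n ∧
        ¬ CopyIn k EH (step k n (Gn k EH n) (t n).1 (t n).2) (insert n (t n).1)) :
    Gn k EH (n + 1) = step k n (Gn k EH n) (t n).1 (t n).2 := by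
  rw [Gn, if_pos h]

lemma Gn_succ_neg {n : ℕ} (h : ¬ ((t n).1 ⊆ range n ∧
        ¬ CopyIn k EH (step k n (Gn k EH n) (t n).1 (t n).2) (insert n (t n).1))) :
    Gn k EH (n + 1) = Gn k EH n := by
  rw [Gn, if_neg h]

lemma mem_succ {n : ℕ} {s : Finset ℕ} (hs : s ∈ Gn k EH (n + 1)) :
    s ∈ Gn k EH n ∨ (∃ l : Finset ℕ, l ⊆ range n ∧ l.card + 1 = k ∧ s = insert n l) := by
  by_cases h : (t n).1 ⊆ range n ∧
        ¬ CopyIn k EH (step k n (Gn k EH n) (t n).1 (t n).2) (insert n (t n).1)
  · rw [Gn_succ_pos h] at hs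
    rcases hs with hs | ⟨l, -, hl, hc, rfl⟩
    · exact Or.inl hs
    · exact Or.inr ⟨l, hl.trans h.1, hc, rfl⟩
  · rw [Gn_succ_neg h] at hs
    exact Or.inl hs

lemma Gn_sub {n : ℕ} {s : Finset ℕ} (hs : s ∈ Gn k EH n) : s ⊆ range n ∧ s.card = k := by
  induction n with
  | zero => exact absurd hs (by simp [Gn])
  | succ n ih =>
    rcases mem_succ hs with h | ⟨l, hl, hc, rfl⟩
    · exact ⟨(ih h).1.trans (range_subset_range.2 (Nat.le_succ n)), (ih h).2⟩
    · constructor
      · intro x hx
        rcases Finset.mem_insert.1 hx with rfl | hx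
        · exact Finset.mem_range.2 (Nat.lt_succ_self _)
        · exact Finset.mem_range.2 (Nat.lt_succ_of_lt (Finset.mem_range.1 (hl hx)))
      · rw [Finset.card_insert_of_notMem, hc]
        intro h
        exact absurd (Finset.mem_range.1 (hl h)) (lt_irrefl _)

lemma Gn_mono_succ {n : ℕ} {s : Finset ℕ} (hs : s ∈ Gn k EH n) : s ∈ Gn k EH (n + 1) := by
  by_cases h : (t n).1 ⊆ range n ∧
        ¬ CopyIn k EH (step k n (Gn k EH n) (t n).1 (t n).2) (insert n (t n).1)
  · rw [Gn_succ_pos h]
    exact Or.inl hs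
  · rw [Gn_succ_neg h]
    exact hs

lemma Gn_mono {m n : ℕ} (hmn : m ≤ n) {s : Finset ℕ} (hs : s ∈ Gn k EH m) : s ∈ Gn k EH n := by
  induction n, hmn using Nat.le_induction with
  | base => exact hs
  | succ n _ ih => exact Gn_mono_succ ih

lemma Gn_back {m n : ℕ} {s : Finset ℕ} (hs : s ∈ Gn k EH m) (hn : s ⊆ range n) :
    s ∈ Gn k EH n := by
  induction m with
  | zero => exact absurd hs (by simp [Gn])
  | succ m ih =>
    rcases Nat.lt_or_ge m n with h | h
    · exact Gn_mono h hs
    · rcases mem_succ hs with h' | ⟨l, -, -, rfl⟩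
      · exact ih h'
      · have := Finset.mem_range.1 (hn (Finset.mem_insert_self m l))
        omega

/-- the edges of the generic hypergraph -/
def GE (k : ℕ) (EH : Set (Finset W)) : Set (Finset ℕ) := {s | ∃ n, s ∈ Gn k EH n}

lemma GE_iff {n : ℕ} {s : Finset ℕ} (hn : s ⊆ range n) : s ∈ GE k EH ↔ s ∈ Gn k EH n :=
  ⟨fun ⟨_, hm⟩ => Gn_back hm hn, fun h => ⟨n, h⟩⟩

/-- The generic hypergraph is `H`-free. -/
lemma free [Finite W] [Nontrivial W] (hEH : ∀ e ∈ EH, e.card = k)
    (hcov : ∀ a b : W, ∃ e ∈ EH, a ∈ e ∧ b ∈ e) :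
    ¬ ∃ φ : W ↪ ℕ, ∀ e : Finset W, e.card = k → (e ∈ EH ↔ e.map φ ∈ GE k EH) := by
  rintro ⟨φ, hφ⟩
  obtain ⟨w0, hw0⟩ := Finite.exists_max (fun w => φ w)
  set n := φ w0 with hn
  have hsub : ∀ e : Finset W, e.map φ ⊆ range (n + 1) := by
    intro e x hx
    obtain ⟨w, -, rfl⟩ := Finset.mem_map.1 hx
    exact Finset.mem_range.2 (Nat.lt_succ_of_le (hw0 w))
  have hφ' : ∀ e : Finset W, e.card = k → (e ∈ EH ↔ e.map φ ∈ Gn k EH (n + 1)) := by
    intro e he
    rw [hφ e he, GE_iff (hsub e)]
  have hnot : ∀ e : Finset W, w0 ∈ e → e.map φ ∉ Gn k EH n := by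
    intro e he hmem
    have h1 := (Gn_sub hmem).1 (Finset.mem_map_of_mem φ he)
    exact absurd (Finset.mem_range.1 h1) (lt_irrefl _)
  by_cases h : (t n).1 ⊆ range n ∧
        ¬ CopyIn k EH (step k n (Gn k EH n) (t n).1 (t n).2) (insert n (t n).1)
  · rw [Gn_succ_pos h] at hφ'
    refine h.2 ⟨φ, ?_, hφ'⟩
    intro w
    by_cases hw : w = w0
    · rw [hw]
      exact Finset.mem_insert_self _ _
    · obtain ⟨e, he, h1, h2⟩ := hcov w0 w
      rcases (hφ' e (hEH e he)).1 he with h3 | ⟨l, -, hl, -, h4⟩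
      · exact absurd h3 (hnot e h1)
      · have h5 : φ w ∈ insert n l := h4 ▸ Finset.mem_map_of_mem φ h2
        exact Finset.insert_subset_insert n hl h5
  · rw [Gn_succ_neg h] at hφ'
    obtain ⟨e, he, h1, -⟩ := hcov w0 w0
    exact hnot e h1 ((hφ' e (hEH e he)).1 he)

/-! ### The extension -/

/-- `ψ` embeds the part `A` of the flipped hypergraph, and the only perturbed set is `e₀`. -/
def Good (k : ℕ) (EH : Set (Finset W)) (P : Set (Finset ℕ)) (e0 A : Finset W) (ψ : W → ℕ) :
    Prop :=
  Set.InjOn ψ A ∧ e0 ⊆ A ∧ ∀ s ⊆ A, s.card = k →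
    ((s ∈ symmDiff EH {e0} ↔ s.image ψ ∈ GE k EH) ∧ (s.image ψ ∈ P ↔ s = e0))

lemma ncard_ne [Finite W] (EH : Set (Finset W)) (e0 : Finset W) :
    (symmDiff EH {e0}).ncard ≠ EH.ncard := by
  classical
  by_cases h : e0 ∈ EH
  · have h1 : symmDiff EH {e0} = EH \ {e0} := by
      ext s
      simp only [Set.mem_symmDiff, Set.mem_singleton_iff, Set.mem_sdiff]
      constructor
      · rintro (h' | ⟨rfl, h'⟩)
        · exact h'
        · exact absurd h h'
      · intro h'
        exact Or.inl h'
    rw [h1]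
    have h2 := Set.ncard_sdiff_singleton_lt_of_mem h (Set.toFinite EH)
    exact h2.ne
  · have h1 : symmDiff EH {e0} = insert e0 EH := by
      ext s
      simp only [Set.mem_symmDiff, Set.mem_singleton_iff, Set.mem_insert_iff]
      constructor
      · rintro (⟨h', -⟩ | ⟨h', -⟩)
        · exact Or.inr h'
        · exact Or.inl h'
      · rintro (rfl | h')
        · exact Or.inr ⟨rfl, h⟩
        · refine Or.inl ⟨h', ?_⟩
          rintro rfl
          exact h h'
    rw [h1, Set.ncard_insert_of_notMem h (Set.toFinite EH)]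
    omega

lemma extend [Fintype W] [DecidableEq W] (hk : 2 ≤ k) (hEH : ∀ e ∈ EH, e.card = k)
    {P : Set (Finset ℕ)} (hP : LocFinite P) {e0 A : Finset W} (he0k : e0.card = k) {ψ : W → ℕ} (hg : Good k EH P e0 A ψ) {w : W} (hw : w ∉ A) :
    ∃ ψ', Good k EH P e0 (insert w A) ψ' := by
  classical
  obtain ⟨hinj, he0, hA⟩ := hg
  set X := A.image ψ with hX
  set L : Finset (Finset ℕ) :=
    ((A.powersetCard (k - 1)).filter (fun s => insert w s ∈ symmDiff EH {e0})).image
      (fun s => s.image ψ) with hL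
  -- the vertices of perturbed sets which meet X
  have hBfin : {x : ℕ | ∃ e ∈ P, (∃ y ∈ X, y ∈ e) ∧ x ∈ e}.Finite := by
    have h1 : {x : ℕ | ∃ e ∈ P, (∃ y ∈ X, y ∈ e) ∧ x ∈ e} ⊆
        ⋃ y ∈ X, ⋃ e ∈ {e : Finset ℕ | e ∈ P ∧ y ∈ e}, (e : Set ℕ) := by
      rintro x ⟨e, he, ⟨y, hy, hye⟩, hx⟩
      simp only [Set.mem_iUnion]
      exact ⟨y, hy, e, ⟨he, hye⟩, hx⟩
    refine Set.Finite.subset ?_ h1
    refine Set.Finite.biUnion (Finset.finite_toSet X) ?_
    intro y _
    exact Set.Finite.biUnion (hP y) (fun e _ => Finset.finite_toSet e)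
  obtain ⟨N1, hN1⟩ := hBfin.bddAbove
  obtain ⟨N2, hN2⟩ := X.bddAbove
  obtain ⟨n, hnN, htn⟩ := t_surj (X, L) (N1 + N2 + 1)
  have hXn : X ⊆ range n := by
    intro x hx
    have := hN2 (Finset.mem_coe.2 hx)
    exact Finset.mem_range.2 (by omega)
  have hnB : n ∉ {x : ℕ | ∃ e ∈ P, (∃ y ∈ X, y ∈ e) ∧ x ∈ e} := by
    intro h
    have := hN1 h
    omega
  have ht1 : (t n).1 = X := by rw [htn]
  have ht2 : (t n).2 = L := by rw [htn]
  set ψ' : W → ℕ := Function.update ψ w n with hψ'
  have hψw : ψ' w = n := Function.update_self ..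
  have hψA : ∀ a ∈ A, ψ' a = ψ a := by
    intro a ha
    exact Function.update_of_ne (fun h : a = w => hw (h ▸ ha)) _ _
  have himgA : ∀ s ⊆ A, s.image ψ' = s.image ψ := by
    intro s hs
    exact Finset.image_congr (fun a ha => hψA a (hs ha))
  have himgX : ∀ s ⊆ A, s.image ψ ⊆ X := fun s hs => Finset.image_subset_image hs
  have hnX : n ∉ X := fun h => absurd (Finset.mem_range.1 (hXn h)) (lt_irrefl _)
  have hinj' : Set.InjOn ψ' (insert w A : Finset W) := by
    intro a ha b hb hab
    rw [Finset.coe_insert] at ha hb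
    rcases ha with rfl | ha <;> rcases hb with rfl | hb
    · rfl
    · rw [hψw, hψA b hb] at hab
      exact absurd (hab ▸ Finset.mem_image_of_mem ψ hb) hnX
    · rw [hψw, hψA a ha] at hab
      exact absurd (hab ▸ Finset.mem_image_of_mem ψ ha) hnX
    · rw [hψA a ha, hψA b hb] at hab
      exact hinj ha hb hab
  set S := step k n (Gn k EH n) X L with hS
  have himgw : ∀ s ⊆ insert w A, w ∈ s → s.image ψ' = insert n ((s.erase w).image ψ) := by
    intro s hs hws
    conv_lhs => rw [← Finset.insert_erase hws]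
    rw [Finset.image_insert, hψw, himgA]
    intro a ha
    rw [Finset.mem_erase] at ha
    exact (Finset.mem_insert.1 (hs ha.2)).resolve_left ha.1
  have heraseA : ∀ s ⊆ insert w A, s.erase w ⊆ A := by
    intro s hs a ha
    rw [Finset.mem_erase] at ha
    exact (Finset.mem_insert.1 (hs ha.2)).resolve_left ha.1
  have hkey : ∀ s ⊆ insert w A, s.card = k → (s ∈ symmDiff EH {e0} ↔ s.image ψ' ∈ S) := by
    intro s hs hc
    by_cases hws : w ∈ s
    · rw [himgw s hs hws]
      have hnn : ∀ s1 ⊆ A, n ∉ s1.image ψ := fun s1 hs1 h => hnX (himgX s1 hs1 h)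
      constructor
      · intro h
        refine Or.inr ⟨(s.erase w).image ψ, ?_, himgX _ (heraseA s hs), ?_, rfl⟩
        · rw [hL]
          refine Finset.mem_image_of_mem _ ?_
          rw [Finset.mem_filter, Finset.mem_powersetCard]
          refine ⟨⟨heraseA s hs, ?_⟩, ?_⟩
          · rw [Finset.card_erase_of_mem hws, hc]
          · rw [Finset.insert_erase hws]
            exact h
        · rw [Finset.card_image_of_injOn (hinj.mono (by exact_mod_cast heraseA s hs)),
            Finset.card_erase_of_mem hws, hc]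
          omega
      · rintro (h | ⟨l, hl, -, -, heq⟩)
        · exact absurd (Finset.mem_range.1 ((Gn_sub h).1 (Finset.mem_insert_self _ _)))
            (lt_irrefl _)
        · rw [hL, Finset.mem_image] at hl
          obtain ⟨s1, hs1, rfl⟩ := hl
          rw [Finset.mem_filter, Finset.mem_powersetCard] at hs1
          obtain ⟨⟨hs1A, -⟩, hs1E⟩ := hs1
          have h1 : (s.erase w).image ψ = s1.image ψ := by
            have h2 := congrArg (fun z => z.erase n) heq
            simpa only [Finset.erase_insert (hnn _ (heraseA s hs)),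
              Finset.erase_insert (hnn _ hs1A)] using h2
          have h3 : s.erase w = s1 := by
            ext a
            constructor
            · intro ha
              have h4 : ψ a ∈ s1.image ψ := h1 ▸ Finset.mem_image_of_mem ψ ha
              obtain ⟨b, hb, hab⟩ := Finset.mem_image.1 h4
              have := hinj (hs1A hb) (heraseA s hs ha) hab
              exact this ▸ hb
            · intro ha
              have h4 : ψ a ∈ (s.erase w).image ψ := h1 ▸ Finset.mem_image_of_mem ψ ha
              obtain ⟨b, hb, hab⟩ := Finset.mem_image.1 h4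
              have := hinj (heraseA s hs hb) (hs1A ha) hab
              exact this ▸ hb
          rw [← h3, Finset.insert_erase hws] at hs1E
          exact hs1E
    · have hsA : s ⊆ A := by
        intro a ha
        exact (Finset.mem_insert.1 (hs ha)).resolve_left (fun h => hws (h ▸ ha))
      rw [himgA s hsA, (hA s hsA hc).1, GE_iff ((himgX s hsA).trans hXn)]
      constructor
      · intro h
        exact Or.inl h
      · rintro (h | ⟨l, -, -, -, heq⟩)
        · exact h
        · have h2 : n ∈ s.image ψ := heq ▸ Finset.mem_insert_self n l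
          exact absurd (himgX s hsA h2) hnX
  -- no copy of `H` inside `insert n X`
  have hcond : ¬ CopyIn k EH S (insert n X) := by
    rintro ⟨φ, hφZ, hφE⟩
    have hcardX : X.card = A.card := Finset.card_image_of_injOn hinj
    have hcW : Fintype.card W ≤ (insert n X).card := by
      have h1 : (univ.map φ) ⊆ insert n X := by
        intro x hx
        obtain ⟨w', -, rfl⟩ := Finset.mem_map.1 hx
        exact hφZ w'
      have h2 := Finset.card_le_card h1
      rwa [Finset.card_map, Finset.card_univ] at h2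
    have huniv : insert w A = univ := by
      apply Finset.eq_univ_of_card
      rw [Finset.card_insert_of_notMem hnX] at hcW
      have h3 := Finset.card_le_univ (insert w A)
      rw [Finset.card_insert_of_notMem hw] at h3 ⊢
      omega
    have hex : ∀ w' : W, ∃ a : W, ψ' a = φ w' := by
      intro w'
      have h1 := hφZ w'
      rcases Finset.mem_insert.1 h1 with h2 | h2
      · exact ⟨w, by rw [hψw, h2]⟩
      · obtain ⟨a, ha, hab⟩ := Finset.mem_image.1 h2
        exact ⟨a, by rw [hψA a ha, hab]⟩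
    choose σ hσ using hex
    have hσinj : Function.Injective σ := by
      intro a b hab
      apply φ.injective
      rw [← hσ a, ← hσ b, hab]
    have h1 : ∀ e : Finset W, e.card = k → (e ∈ EH ↔ e.image σ ∈ symmDiff EH {e0}) := by
      intro e he
      rw [hφE e he, hkey (e.image σ) (huniv ▸ Finset.subset_univ _)
        (by rw [Finset.card_image_of_injective _ hσinj, he])]
      have h2 : (e.image σ).image ψ' = e.map φ := by
        rw [Finset.image_image, Finset.map_eq_image]
        exact Finset.image_congr (fun a _ => hσ a)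
      rw [h2]
    have hσs : Function.Surjective σ := Finite.injective_iff_surjective.1 hσinj
    have hE'k : ∀ s ∈ symmDiff EH {e0}, s.card = k := by
      intro s hs
      rcases hs with ⟨h, -⟩ | ⟨h, -⟩
      · exact hEH s h
      · rw [Set.mem_singleton_iff] at h
        rw [h, he0k]
    have h3 : symmDiff EH {e0} = (fun e : Finset W => e.image σ) '' EH := by
      ext s
      constructor
      · intro hs
        obtain ⟨e, rfl⟩ : ∃ e : Finset W, e.image σ = s := by
          refine ⟨univ.filter (fun a => σ a ∈ s), ?_⟩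
          ext x
          simp only [Finset.mem_image, Finset.mem_filter, Finset.mem_univ, true_and]
          constructor
          · rintro ⟨a, ha, rfl⟩
            exact ha
          · intro hx
            obtain ⟨a, rfl⟩ := hσs x
            exact ⟨a, hx, rfl⟩
        refine ⟨e, ?_, rfl⟩
        have hc : e.card = k := by
          have := hE'k _ hs
          rwa [Finset.card_image_of_injective _ hσinj] at this
        exact (h1 e hc).2 hs
      · rintro ⟨e, he, rfl⟩
        exact (h1 e (hEH e he)).1 he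
    have h4 := Set.ncard_image_of_injective EH (Finset.image_injective hσinj)
    exact ncard_ne EH e0 (by rw [h3]; exact h4)
  have hGn1 : Gn k EH (n + 1) = S := by
    have h := Gn_succ_pos (k := k) (EH := EH) (n := n)
      (by rw [ht1, ht2]; exact ⟨hXn, hcond⟩)
    rw [h, ht1, ht2]
  refine ⟨ψ', hinj', he0.trans (Finset.subset_insert _ _), ?_⟩
  intro s hs hc
  have hsub : s.image ψ' ⊆ range (n + 1) := by
    intro x hx
    obtain ⟨a, ha, rfl⟩ := Finset.mem_image.1 hx
    rcases Finset.mem_insert.1 (hs ha) with rfl | h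
    · rw [hψw]
      exact Finset.mem_range.2 (Nat.lt_succ_self _)
    · rw [hψA a h]
      have := Finset.mem_range.1 (hXn (Finset.mem_image_of_mem ψ h))
      exact Finset.mem_range.2 (by omega)
  refine ⟨?_, ?_⟩
  · rw [hkey s hs hc, GE_iff hsub, hGn1]
  · by_cases hws : w ∈ s
    · have h1 : s ≠ e0 := by
        rintro rfl
        exact hw (he0 hws)
      refine ⟨fun h => ?_, fun h => absurd h h1⟩
      exfalso
      have h2 : (s.erase w).Nonempty := by
        rw [← Finset.card_pos, Finset.card_erase_of_mem hws, hc]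
        omega
      obtain ⟨a, ha⟩ := h2
      apply hnB
      refine ⟨s.image ψ', h, ⟨ψ a, Finset.mem_image_of_mem ψ (heraseA s hs ha), ?_⟩, ?_⟩
      · rw [himgw s hs hws]
        exact Finset.mem_insert_of_mem (Finset.mem_image_of_mem ψ ha)
      · rw [himgw s hs hws]
        exact Finset.mem_insert_self _ _
    · have hsA : s ⊆ A := by
        intro a ha
        exact (Finset.mem_insert.1 (hs ha)).resolve_left (fun h => hws (h ▸ ha))
      rw [himgA s hsA]
      exact (hA s hsA hc).2

lemma extend_all [Fintype W] [DecidableEq W] (hk : 2 ≤ k) (hEH : ∀ e ∈ EH, e.card = k)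
    {P : Set (Finset ℕ)} (hP : LocFinite P) {e0 : Finset W} (he0k : e0.card = k)
    {ψ : W → ℕ} (hg : Good k EH P e0 e0 ψ) :
    ∃ ψ', Good k EH P e0 univ ψ' := by
  have h : ∀ T : Finset W, ∃ ψ', Good k EH P e0 (T ∪ e0) ψ' := by
    intro T
    induction T using Finset.induction_on with
    | empty => exact ⟨ψ, by rwa [Finset.empty_union]⟩
    | insert a T _ ih =>
      obtain ⟨ψ', h'⟩ := ih
      rw [Finset.insert_union]
      by_cases ha : a ∈ T ∪ e0
      · rw [Finset.insert_eq_of_mem ha]
        exact ⟨ψ', h'⟩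
      · exact extend hk hEH hP he0k h' ha
  have h2 := h univ
  rwa [Finset.union_eq_left.2 (Finset.subset_univ e0)] at h2

end construction

/-- The case in which every two vertices of `H` lie in an edge. -/
theorem cover_case {k : ℕ} (hk : 2 ≤ k) {W : Type u} [Fintype W] (H : HG k W)
    (h1 : ∃ e, e ∈ H.E) (h2 : ∃ e : Finset W, e.card = k ∧ e ∉ H.E)
    (hcov : ∀ a b : W, ∃ e ∈ H.E, a ∈ e ∧ b ∈ e) : ∃ G : HG k ℕ, StronglySat H G := by
  classical
  have hnt : Nontrivial W := by
    obtain ⟨e, he⟩ := h1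
    have hc : 1 < e.card := by
      rw [H.card_eq e he]
      omega
    obtain ⟨a, -, b, -, hab⟩ := Finset.one_lt_card.1 hc
    exact ⟨a, b, hab⟩
  refine ⟨⟨GE k H.E, fun e ⟨n, hn⟩ => (Gn_sub hn).2⟩, free H.card_eq hcov, ?_⟩
  intro P hPk ⟨e, he⟩ hP
  -- choose the flipped `k`-set of `H`
  obtain ⟨e0, he0k, he0⟩ : ∃ e0 : Finset W, e0.card = k ∧ (e0 ∉ H.E ↔ e ∈ GE k H.E) := by
    by_cases hG : e ∈ GE k H.E
    · obtain ⟨e0, hc, hn⟩ := h2
      exact ⟨e0, hc, by simp [hG, hn]⟩
    · obtain ⟨e0, hm⟩ := h1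
      exact ⟨e0, H.card_eq e0 hm, by simp [hG, hm]⟩
  have hek := hPk e he
  obtain ⟨f⟩ : Nonempty (e0 ≃ e) := ⟨Finset.equivOfCardEq (he0k.trans hek.symm)⟩
  set ψ : W → ℕ := fun w => if h : w ∈ e0 then (f ⟨w, h⟩ : ℕ) else 0 with hψ
  have hψe : ∀ (w : W) (h : w ∈ e0), ψ w = f ⟨w, h⟩ := by
    intro w h
    rw [hψ]
    simp only [h, dif_pos]
  have hinj : Set.InjOn ψ e0 := by
    intro a ha b hb hab
    rw [hψe a ha, hψe b hb] at hab
    have := f.injective (Subtype.ext hab)
    exact congrArg Subtype.val this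
  have himg : e0.image ψ = e := by
    apply Finset.eq_of_subset_of_card_le
    · intro x hx
      obtain ⟨a, ha, rfl⟩ := Finset.mem_image.1 hx
      rw [hψe a ha]
      exact (f ⟨a, ha⟩).2
    · rw [Finset.card_image_of_injOn hinj, he0k, hek]
  have hgood : Good k H.E P e0 e0 ψ := by
    refine ⟨hinj, Finset.Subset.refl _, ?_⟩
    intro s hs hc
    have hse : s = e0 := Finset.eq_of_subset_of_card_le hs (by rw [hc, he0k])
    subst hse
    rw [himg]
    refine ⟨?_, by simp [he]⟩
    rw [← he0]
    simp [Set.mem_symmDiff]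
  obtain ⟨ψ', hinj', -, h'⟩ := extend_all hk H.card_eq hP he0k hgood
  have hinj'' : Function.Injective ψ' := by
    intro a b hab
    exact hinj' (Finset.mem_coe.2 (Finset.mem_univ a)) (Finset.mem_coe.2 (Finset.mem_univ b)) hab
  refine ⟨⟨ψ', hinj''⟩, ?_⟩
  intro s hc
  obtain ⟨ha, hb⟩ := h' s (Finset.subset_univ s) hc
  have hmap : s.map ⟨ψ', hinj''⟩ = s.image ψ' := Finset.map_eq_image _ _
  change s ∈ H.E ↔ s.map ⟨ψ', hinj''⟩ ∈ symmDiff (GE k H.E) P
  rw [hmap, Set.mem_symmDiff, ← ha, hb, Set.mem_symmDiff, Set.mem_singleton_iff]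
  tauto

/-- The complement. -/
def compl {k : ℕ} {V : Type u} (H : HG k V) : HG k V := ⟨{e | e.card = k ∧ e ∉ H.E}, fun _ h => h.1⟩

lemma mem_compl {k : ℕ} {V : Type u} (H : HG k V) {e : Finset V} (he : e.card = k) :
    e ∈ (compl H).E ↔ e ∉ H.E := ⟨fun h => h.2, fun h => ⟨he, h⟩⟩

lemma sat_of_compl {k : ℕ} {W : Type u} (H : HG k W) (G : HG k ℕ) (h : StronglySat (compl H) G) :
    StronglySat H (compl G) := by
  constructor
  · rintro ⟨φ, hφ⟩
    apply h.1
    refine ⟨φ, fun e he => ?_⟩
    rw [mem_compl H he, hφ e he, mem_compl G (by rw [Finset.card_map, he]), not_not]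
  · intro P hP hne hloc
    obtain ⟨φ, hφ⟩ := h.2 P hP hne hloc
    refine ⟨φ, fun e he => ?_⟩
    have h1 := hφ e he
    have he' : (e.map φ).card = k := by rw [Finset.card_map, he]
    rw [mem_compl H he] at h1
    change (e ∉ H.E ↔ e.map φ ∈ symmDiff G.E P) at h1
    change (e ∈ H.E ↔ e.map φ ∈ symmDiff (compl G).E P)
    rw [Set.mem_symmDiff] at h1 ⊢
    rw [mem_compl G he']
    tauto

/-- Let `k ≥ 3` and let `H` be a finite `k`-uniform hypergraph with at least one edge and at least
one non-edge.  If `k ≥ 4`, or if every two vertices of `H` lie in a common edge, or if every two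
vertices of `H` lie in a common non-edge, then there is a strongly `H`-induced-saturated
`k`-uniform hypergraph on `ℕ`. -/
theorem result (k : ℕ) (hk : 3 ≤ k) (W : Type u) [Fintype W] (H : HG k W)
    (h1 : ∃ e, e ∈ H.E) (h2 : ∃ e : Finset W, e.card = k ∧ e ∉ H.E)
    (h3 : 4 ≤ k ∨ (∀ a b : W, ∃ e : Finset W, e ∈ H.E ∧ a ∈ e ∧ b ∈ e) ∨
      (∀ a b : W, ∃ e : Finset W, e.card = k ∧ e ∉ H.E ∧ a ∈ e ∧ b ∈ e)) :
    ∃ G : HG k ℕ, StronglySat H G := by
  classical
  have h4 : (∀ a b : W, ∃ e : Finset W, e ∈ H.E ∧ a ∈ e ∧ b ∈ e) ∨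
      (∀ a b : W, ∃ e : Finset W, e.card = k ∧ e ∉ H.E ∧ a ∈ e ∧ b ∈ e) := by
    rcases h3 with h | h
    · by_contra hcon
      push Not at hcon
      obtain ⟨⟨a, b, hab⟩, ⟨c, d, hcd⟩⟩ := hcon
      obtain ⟨e, he⟩ := h1
      have hW : k ≤ (univ : Finset W).card := by
        rw [← H.card_eq e he]
        exact Finset.card_le_card (Finset.subset_univ e)
      have h5 : ({a, b, c, d} : Finset W).card ≤ k := Finset.card_le_four.trans h
      obtain ⟨s, hs, -, hsc⟩ := Finset.exists_subsuperset_card_eq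
        (Finset.subset_univ ({a, b, c, d} : Finset W)) h5 hW
      have ha : a ∈ s := hs (by simp)
      have hb : b ∈ s := hs (by simp)
      have hc : c ∈ s := hs (by simp)
      have hd : d ∈ s := hs (by simp)
      by_cases hsE : s ∈ H.E
      · exact hab s hsE ha hb
      · exact hcd s hsc hsE hc hd
    · exact h
  rcases h4 with h | h
  · exact cover_case (by omega) H h1 h2 (fun a b => by
      obtain ⟨e, he, ha, hb⟩ := h a b
      exact ⟨e, he, ha, hb⟩)
  · obtain ⟨G, hG⟩ := cover_case (k := k) (by omega) (compl H)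
      (by obtain ⟨e, he⟩ := h2; exact ⟨e, he⟩)
      (by
        obtain ⟨e, he⟩ := h1
        exact ⟨e, H.card_eq e he, fun h' => h'.2 he⟩)
      (fun a b => by
        obtain ⟨e, he, he', ha, hb⟩ := h a b
        exact ⟨e, ⟨he, he'⟩, ha, hb⟩)
    exact ⟨compl G, sat_of_compl H G hG⟩

end Pool.Agent.Results.MP_9095a7_co.KAtLeastFour
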